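import Pool.Agent.H23.NVK.MTargets
import Pool.Agent.H50.CN.PER

/-!
# The mollifier over an abstract semigroup of ideals: the error functional (row M_PER)
-/

set_option autoImplicit false

open MeasureTheory Set Filter
open scoped Real

namespace Pool.Agent.H4.NVK

open Pool.Agent.H31.CN (GR E lin al et)
open Pool.Agent.H50.CN (BD BD_mono BD_zero BD_add BD_smul BD_sum BD_E BD_one BD_mul BD_prod
  BD_exists lim_aux)
open Pool.Agent.H23.NVK

variable {α : Type} {N : α → ℕ} {ρ δ : ℝ}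

theorem BD_al1 {p : ℕ} (hp : 1 ≤ p) : BD (2 / p) (Real.log p) (al p) := by
  have h1 : (1 : ℝ) ≤ p := by exact_mod_cast hp
  have hl : 0 ≤ Real.log p := Real.log_nonneg h1
  have hz : |Real.log p| ≤ Real.log p := (abs_of_nonneg hl).le
  have h2 : BD (|1 / (p : ℝ)| * (1 + 1)) (Real.log p) (al p) :=
    BD_smul (BD_add (BD_E hz (by simpa using hl)) (BD_E (by simpa using hl) hz)) _
  refine BD_mono h2 (le_of_eq ?_) le_rfl
  rw [abs_of_nonneg (by positivity)]
  ring

theorem BD_et1 {p : ℕ} (hp : 1 ≤ p) : BD (2 / p) (Real.log p) (et p) := by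
  have h1 : (1 : ℝ) ≤ p := by exact_mod_cast hp
  have h0 : (0 : ℝ) < p := by linarith
  have hl : 0 ≤ Real.log p := Real.log_nonneg h1
  have hz : |Real.log p| ≤ Real.log p := (abs_of_nonneg hl).le
  have h2 : BD (|1 / (p : ℝ)| * 1 + |-(1 / (p : ℝ) ^ 3)| * 1) (Real.log p)
      ((1 / (p : ℝ)) • (1 : GR) + (-(1 / (p : ℝ) ^ 3)) • E (Real.log p) (Real.log p)) :=
    BD_add (BD_smul (BD_mono BD_one le_rfl hl) _) (BD_smul (BD_E hz hz) _)
  have h3 : et p = (1 / (p : ℝ)) • (1 : GR) +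
      (-(1 / (p : ℝ) ^ 3)) • E (Real.log p) (Real.log p) := by
    rw [neg_smul, ← sub_eq_add_neg]
    rfl
  rw [h3]
  refine BD_mono h2 ?_ le_rfl
  rw [abs_neg, abs_of_nonneg (by positivity), abs_of_nonneg (by positivity), mul_one, mul_one]
  have h4 : 1 / (p : ℝ) ^ 3 ≤ 1 / p := by
    refine one_div_le_one_div_of_le h0 ?_
    calc (p : ℝ) = (p : ℝ) ^ 1 := (pow_one _).symm
      _ ≤ (p : ℝ) ^ 3 := pow_le_pow_right₀ h1 (by norm_num)
  calc 1 / (p : ℝ) + 1 / (p : ℝ) ^ 3 ≤ 1 / (p : ℝ) + 1 / (p : ℝ) := by linarith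
    _ = 2 / p := by ring

theorem prod_eqS (S : Finset α) : ∏ p ∈ S, (2 / (N p : ℝ)) = 2 ^ S.card / nS N S := by
  unfold nS
  rw [Finset.prod_div_distrib, Finset.prod_const, Nat.cast_prod]

theorem sum_eqS (h : AxA N ρ δ) (S : Finset α) :
    ∑ p ∈ S, Real.log (N p) = Real.log (nS N S) := by
  unfold nS
  rw [Nat.cast_prod, Real.log_prod (fun p _ => by
    have := h.two p
    have h2 : (2 : ℝ) ≤ N p := by exact_mod_cast this
    linarith)]

/-- the divisor sum -/
noncomputable def SnS (N : α → ℕ) (y : ℝ) : ℝ := ∑ S ∈ SM N y, 2 ^ S.card / (nS N S : ℝ)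

theorem SnS_nonneg (y : ℝ) : 0 ≤ SnS N y := Finset.sum_nonneg fun _ _ => by positivity

theorem SnS_le (h : AxA N ρ δ) (y : ℝ) :
    SnS N y ≤ (∏ p ∈ PM N y, (1 + 1 / (N p : ℝ))) ^ 2 := by
  classical
  have hsub : SM N y ⊆ (PM N y).powerset := by
    intro S hS
    rw [Finset.mem_powerset]
    intro p hp
    rw [h.mem_PM]
    refine le_trans ?_ (h.mem_SM.1 hS)
    have h1 : N p ≤ nS N S := by
      unfold nS
      exact Finset.single_le_prod' (f := N) (fun q _ => by have := h.two q; omega) hp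
    exact_mod_cast h1
  calc SnS N y ≤ ∑ S ∈ (PM N y).powerset, 2 ^ S.card / (nS N S : ℝ) :=
        Finset.sum_le_sum_of_subset_of_nonneg hsub fun _ _ _ => by positivity
    _ = ∑ S ∈ (PM N y).powerset, ∏ p ∈ S, (2 / (N p : ℝ)) :=
        Finset.sum_congr rfl fun S _ => (prod_eqS S).symm
    _ = ∏ p ∈ PM N y, (1 + 2 / (N p : ℝ)) := (Finset.prod_one_add _).symm
    _ ≤ ∏ p ∈ PM N y, (1 + 1 / (N p : ℝ)) ^ 2 := by
        refine Finset.prod_le_prod (fun p _ => by positivity) fun p _ => ?_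
        have h1 : 0 ≤ 1 / (N p : ℝ) := by positivity
        have h2 : 2 / (N p : ℝ) = 2 * (1 / (N p : ℝ)) := by ring
        rw [h2]
        nlinarith
    _ = (∏ p ∈ PM N y, (1 + 1 / (N p : ℝ))) ^ 2 := Finset.prod_pow _ _ _

theorem cm_leS (h : AxA N ρ δ) (P : Polynomial ℝ) : ∃ C : ℝ, 0 ≤ C ∧
    ∀ (M : ℝ) (R S : Finset α), 1 < M → |cm N P M R S| ≤ C := by
  obtain ⟨C, hC⟩ := (isCompact_Icc (a := (0 : ℝ)) (b := 1)).exists_bound_of_continuousOn
    (f := fun t => P.eval t) P.continuous.continuousOn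
  have hC0 : 0 ≤ C := (norm_nonneg _).trans (hC 0 (by simp))
  refine ⟨C, hC0, fun M R S hM => ?_⟩
  unfold cm
  split_ifs with h'
  · have hm1 : (1 : ℝ) ≤ nS N S := by exact_mod_cast h.one_le_nS S
    have hlM : 0 < Real.log M := Real.log_pos hM
    have h1 : Real.log (M / nS N S) = Real.log M - Real.log (nS N S) :=
      Real.log_div (by linarith) (by linarith)
    have h2 : 0 ≤ Real.log (nS N S) := Real.log_nonneg hm1
    have h3 : Real.log (nS N S) ≤ Real.log M := Real.log_le_log (by linarith) h'.1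
    have h4 : Real.log (M / nS N S) / Real.log M ∈ Set.Icc (0 : ℝ) 1 := by
      rw [h1]
      constructor
      · exact div_nonneg (by linarith) hlM.le
      · rw [div_le_one hlM]; linarith
    have h5 := hC _ h4
    rw [Real.norm_eq_abs] at h5
    rw [abs_mul, abs_pow, abs_neg, abs_one, one_pow, one_mul]
    exact h5
  · simpa using hC0

theorem BD_mainS (hCNV : T_CNV) (h : AxA N ρ δ) (P : Polynomial ℝ) {C : ℝ} (hC0 : 0 ≤ C)
    (hC : ∀ (M : ℝ) (R S : Finset α), 1 < M → |cm N P M R S| ≤ C) (R : Finset α) (M : ℝ)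
    (hM : 1 < M) :
    BD (C ^ 2 * SnS N M ^ 3) (2 * Real.log M)
      (∑ S₁ ∈ SM N M, ∑ S₂ ∈ SM N M, (cm N P M R S₁ * cm N P M R S₂) • ka N S₁ S₂) := by
  classical
  have hM0 : 0 < M := by linarith
  rw [hCNV α N ρ δ h M (cm N P M R) (fun S hS => by
    unfold cm
    rw [if_neg]
    rintro ⟨h2, _⟩
    exact hS (h.mem_SM.2 h2))]
  have key : ∀ d ∈ SM N M,
      BD (2 ^ d.card / (nS N d : ℝ) * (C * SnS N M) ^ 2) (2 * Real.log M)
        ((∏ p ∈ d, et (N p)) *
        (∑ S ∈ (SM N M).filter (fun S => Disjoint S d),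
          cm N P M R (d ∪ S) • ∏ p ∈ S, al (N p)) ^ 2) := by
    intro d hd
    have hdM : (nS N d : ℝ) ≤ M := h.mem_SM.1 hd
    have hdR : (1 : ℝ) ≤ nS N d := by exact_mod_cast h.one_le_nS d
    have hld : 0 ≤ Real.log (nS N d) := Real.log_nonneg hdR
    have h1 : BD (2 ^ d.card / (nS N d : ℝ)) (Real.log (nS N d)) (∏ p ∈ d, et (N p)) := by
      rw [← prod_eqS, ← sum_eqS h]
      exact BD_prod _ (fun p _ => by positivity)
        fun p hp => BD_et1 (by have := h.two p; omega)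
    have h2 : BD (∑ S ∈ (SM N M).filter (fun S => Disjoint S d), C * (2 ^ S.card / (nS N S : ℝ)))
        (Real.log M - Real.log (nS N d))
        (∑ S ∈ (SM N M).filter (fun S => Disjoint S d),
          cm N P M R (d ∪ S) • ∏ p ∈ S, al (N p)) := by
      refine BD_sum _ fun S hS => ?_
      have hnR : (1 : ℝ) ≤ nS N S := by exact_mod_cast h.one_le_nS S
      have hdis : Disjoint d S := (Finset.mem_filter.1 hS).2.symm
      by_cases hz : cm N P M R (d ∪ S) = 0
      · rw [hz, zero_smul]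
        exact BD_mono (BD_zero _) (by positivity) le_rfl
      · have hle : (nS N (d ∪ S) : ℝ) ≤ M := by
          by_contra hcon
          refine hz ?_
          unfold cm
          rw [if_neg fun h => hcon h.1]
        have hln : Real.log (nS N S) ≤ Real.log M - Real.log (nS N d) := by
          rw [nS_union hdis] at hle
          have h3 := Real.log_le_log (by push_cast; positivity) hle
          push_cast at h3
          rw [Real.log_mul (by linarith) (by linarith)] at h3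
          linarith
        have h4 : BD (2 ^ S.card / (nS N S : ℝ)) (Real.log (nS N S)) (∏ p ∈ S, al (N p)) := by
          rw [← prod_eqS, ← sum_eqS h]
          exact BD_prod _ (fun p _ => by positivity)
            fun p hp => BD_al1 (by have := h.two p; omega)
        refine BD_mono (BD_smul h4 _) ?_ hln
        exact mul_le_mul_of_nonneg_right (hC M R _ hM) (by positivity)
    have h3 : ∑ S ∈ (SM N M).filter (fun S => Disjoint S d), C * (2 ^ S.card / (nS N S : ℝ)) ≤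
        C * SnS N M := by
      rw [← Finset.mul_sum]
      refine mul_le_mul_of_nonneg_left ?_ hC0
      exact Finset.sum_le_sum_of_subset_of_nonneg (Finset.filter_subset _ _)
        (fun _ _ _ => by positivity)
    have h4 := BD_mono h2 h3 le_rfl
    have h5 := BD_mul h4 h4 (mul_nonneg hC0 (SnS_nonneg _))
    have h6 := BD_mul h1 h5 (mul_self_nonneg _)
    rw [sq, sq]
    refine BD_mono h6 le_rfl ?_
    linarith
  have h7 := BD_sum _ key
  refine BD_mono h7 ?_ le_rfl
  rw [← Finset.sum_mul]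
  have h8 : ∑ d ∈ SM N M, 2 ^ d.card / (nS N d : ℝ) = SnS N M := rfl
  rw [h8]
  exact le_of_eq (by ring)

/-- Row M_PER. -/
theorem pf_PER (hCNV : T_CNV) (hMRT : T_MRT) : T_PER := by
  intro α N ρ δ' hA N₀ P R θ L₀ C₀ c ε f hθ hθ4 hc hε hf
  obtain ⟨V₀, Z₀, hV₀, hZ₀, hN₀⟩ := BD_exists N₀
  obtain ⟨C, hC0, hC⟩ := cm_leS hA P
  obtain ⟨Cm, hCm, hmrt⟩ := hMRT α N ρ δ' hA
  set L : ℝ := |L₀| with hL
  have hL0 : 0 ≤ L := abs_nonneg L₀
  -- the constants
  set a : ℝ := 1 + L + 2 * Z₀ with ha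
  have ha1 : 1 ≤ a := by linarith
  set δ₀ : ℝ := 1 / 2 - 2 * θ with hδ₀
  have hδ0 : 0 < δ₀ := by rw [hδ₀]; linarith
  set δ : ℝ := c * δ₀ with hδ
  have hδp : 0 < δ := mul_pos hc hδ0
  set K : ℝ := V₀ * C ^ 2 * |C₀| * 4 * Cm ^ 6 * Real.exp (c * (L + Z₀)) with hK
  have hK0 : 0 ≤ K := by positivity
  have hlim := lim_aux K a δ hδp
  obtain ⟨U, hU⟩ := (hlim.eventually (gt_mem_nhds hε)).exists_forall_of_atTop
  refine ⟨max (Real.exp (max U 1)) (Real.exp ((L + Z₀) / δ₀)), fun X lam hX hlam => ?_⟩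
  have hX1 : Real.exp (max U 1) ≤ X := (le_max_left _ _).trans hX
  have hX2 : Real.exp ((L + Z₀) / δ₀) ≤ X := (le_max_right _ _).trans hX
  have hX0 : 0 < X := (Real.exp_pos _).trans_le hX1
  set u : ℝ := Real.log X with hu
  have hu1 : max U 1 ≤ u := by
    rw [hu, Real.le_log_iff_exp_le hX0]; exact hX1
  have hu2 : (L + Z₀) / δ₀ ≤ u := by
    rw [hu, Real.le_log_iff_exp_le hX0]; exact hX2
  have hu3 : 1 ≤ u := (le_max_right _ _).trans hu1
  have hu4 : L + Z₀ ≤ δ₀ * u := by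
    rw [div_le_iff₀ hδ0] at hu2
    linarith
  set M : ℝ := X ^ θ with hMd
  have hlM : Real.log M = θ * u := by rw [hMd, Real.log_rpow hX0]
  have hM1 : 1 < M := by
    rw [hMd]
    refine Real.one_lt_rpow ?_ hθ
    by_contra hcon
    have h1 : Real.log X ≤ 0 := Real.log_nonpos hX0.le (not_lt.1 hcon)
    linarith
  have hmain := BD_mainS hCNV hA P hC0 hC R M hM1
  have hVn : 0 ≤ C ^ 2 * SnS N M ^ 3 := by
    have := SnS_nonneg (N := N) M
    positivity
  have htot := BD_mul hN₀ hmain hVn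
  -- the bound of f
  have hlam' := abs_le.1 (hlam.trans (le_abs_self L₀))
  set B : ℝ := |C₀| * (2 * (a + u)) ^ 2 * Real.exp (c * (L + Z₀) - δ * u) with hB
  have hB0 : 0 ≤ B := by positivity
  have h9 : δ₀ * u = u / 2 - 2 * (θ * u) := by rw [hδ₀]; ring
  have hfB : ∀ v : ℝ × ℝ, |v.1| ≤ Z₀ + 2 * Real.log M → |v.2| ≤ Z₀ + 2 * Real.log M →
      |f lam v| ≤ B := by
    intro v h1 h2
    rw [hlM] at h1 h2
    have hv2 := (abs_le.1 h2).2
    have h3 : v.2 ≤ lam := by
      have := hlam'.1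
      linarith
    refine (hf lam v h3).trans ?_
    have h4 : |lam| ≤ u / 2 + L := by
      rw [abs_le]
      constructor <;> linarith [hlam'.1, hlam'.2]
    have h5 : 1 + |lam| + |v.1| + |v.2| ≤ 2 * (a + u) := by
      have : θ * u ≤ 1 / 4 * u := mul_le_mul_of_nonneg_right hθ4.le (by linarith)
      rw [ha]
      linarith
    have h6 : Real.exp (-(c * (lam - v.2))) ≤ Real.exp (c * (L + Z₀) - δ * u) := by
      refine Real.exp_le_exp.2 ?_
      have h10 : δ₀ * u - (L + Z₀) ≤ lam - v.2 := by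
        have := hlam'.1
        linarith
      have h11 := mul_le_mul_of_nonneg_left h10 hc.le
      rw [hδ]
      linarith
    have h7 : (1 + |lam| + |v.1| + |v.2|) ^ 2 ≤ (2 * (a + u)) ^ 2 :=
      pow_le_pow_left₀ (by positivity) h5 2
    calc C₀ * (1 + |lam| + |v.1| + |v.2|) ^ 2 * Real.exp (-(c * (lam - v.2)))
        ≤ |C₀| * (1 + |lam| + |v.1| + |v.2|) ^ 2 * Real.exp (-(c * (lam - v.2))) := by
          refine mul_le_mul_of_nonneg_right ?_ (Real.exp_pos _).le
          exact mul_le_mul_of_nonneg_right (le_abs_self C₀) (sq_nonneg _)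
      _ ≤ |C₀| * (2 * (a + u)) ^ 2 * Real.exp (c * (L + Z₀) - δ * u) := by
          refine mul_le_mul ?_ h6 (Real.exp_pos _).le (by positivity)
          exact mul_le_mul_of_nonneg_left h7 (abs_nonneg _)
  have hfin := htot (f lam) B hB0 hfB
  refine hfin.trans ?_
  have hSn : SnS N M ^ 3 ≤ Cm ^ 6 * (a + u) ^ 6 := by
    have h1 := SnS_le hA M
    have h2 := (hmrt M hM1.le).2
    have h3 : Real.log M ≤ u := by
      rw [hlM]
      have h8 : θ * u ≤ 1 * u := mul_le_mul_of_nonneg_right (by linarith) (by linarith)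
      linarith
    have h3' : 0 ≤ Real.log M := Real.log_nonneg hM1.le
    have h4 : ∏ p ∈ PM N M, (1 + 1 / (N p : ℝ)) ≤ Cm * (a + u) :=
      h2.trans (mul_le_mul_of_nonneg_left (by linarith) hCm.le)
    have h5 : 0 ≤ ∏ p ∈ PM N M, (1 + 1 / (N p : ℝ)) :=
      Finset.prod_nonneg fun p _ => by positivity
    have h6 : SnS N M ≤ (Cm * (a + u)) ^ 2 := h1.trans (pow_le_pow_left₀ h5 h4 2)
    calc SnS N M ^ 3 ≤ ((Cm * (a + u)) ^ 2) ^ 3 := pow_le_pow_left₀ (SnS_nonneg _) h6 3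
      _ = Cm ^ 6 * (a + u) ^ 6 := by ring
  have hUu := hU u ((le_max_left _ _).trans hu1)
  refine le_trans ?_ hUu.le
  calc V₀ * (C ^ 2 * SnS N M ^ 3) * B ≤ V₀ * (C ^ 2 * (Cm ^ 6 * (a + u) ^ 6)) * B := by
        refine mul_le_mul_of_nonneg_right ?_ hB0
        exact mul_le_mul_of_nonneg_left (mul_le_mul_of_nonneg_left hSn (sq_nonneg C)) hV₀
    _ = K * ((a + u) ^ 8 * Real.exp (-(δ * u))) := by
        rw [hB, hK, Real.exp_sub, Real.exp_neg]
        field_simp
        ring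

end Pool.Agent.H4.NVK
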