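import Pool.Agent.H91.NV.LTargets

/-!
# The average of the local weights over the last coefficient (row L_LC, MP_347b49_nt)
-/

set_option autoImplicit false

open MeasureTheory Set Filter NumberField NumberField.InfinitePlace
open scoped Real

namespace Pool.Agent.H4.NVK

open Pool.Agent.H65.CM4 Pool.Agent.H61.NVK Pool.Agent.H89.NV Pool.Agent.H91.NV

section LC

variable {k : Type} [Field k] [NumberField k] [IsTotallyReal k]

open Classical in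
/-- the local factor, as a real number -/
noncomputable def hl (f : Ideal (𝓞 k)) (m₁ m₂ : Finset (PrI k)) (e A : Ideal (𝓞 k)) (b : 𝓞 k)
    (P : PrI k) (c : 𝓞 k) : ℝ :=
  if P ∈ m₁ ∧ P ∈ m₂ then (N2 f P.1 e A b c : ℝ) else (N1 f P.1 e A b c : ℝ)

omit [IsTotallyReal k] in
theorem Nw_cast (f : Ideal (𝓞 k)) (m₁ m₂ : Finset (PrI k)) (e A : Ideal (𝓞 k)) (b c : 𝓞 k) :
    (Nw f m₁ m₂ e A b c : ℝ) = ∏ P ∈ m₁ ∪ m₂, hl f m₁ m₂ e A b P c := by
  unfold Nw hl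
  rw [Nat.cast_prod]
  refine Finset.prod_congr rfl fun P _ => ?_
  split_ifs <;> rfl

theorem hl_per (hNRI : T_NRI k) (hNRA : T_NRA k) {f : Ideal (𝓞 k)} {m₁ m₂ : Finset (PrI k)}
    {e A : Ideal (𝓞 k)} {b : 𝓞 k} (hf : f ≠ ⊥) (hA : A ≠ ⊥) (hb : b ∈ f) (P : PrI k)
    {c x : 𝓞 k} (hc : c ∈ A * f ^ 2) (hcx : c + x ∈ A * f ^ 2)
    (h1 : P.1 ∣ e → x ∈ P.1 * (A * f ^ 2)) (h2 : P.1 ^ 2 ∣ e → x ∈ P.1 ^ 2 * (A * f ^ 2)) :
    hl f m₁ m₂ e A b P (c + x) = hl f m₁ m₂ e A b P c := by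
  classical
  have hP : P.1 ≠ ⊥ := P.2.2
  have hP2 : P.1 ^ 2 ≠ ⊥ := pow_ne_zero 2 hP
  have e1 : (if P.1 ∣ e then nr f P.1 A b (c + x) else 0) =
      if P.1 ∣ e then nr f P.1 A b c else 0 := by
    by_cases h : P.1 ∣ e
    · rw [if_pos h, if_pos h, (hNRI f P.1 A b c hf hP).2.2.2.2 x (h1 h)]
    · rw [if_neg h, if_neg h]
  have e2 : (if P.1 ^ 2 ∣ e then nr f (P.1 ^ 2) A b (c + x) else 0) =
      if P.1 ^ 2 ∣ e then nr f (P.1 ^ 2) A b c else 0 := by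
    by_cases h : P.1 ^ 2 ∣ e
    · rw [if_pos h, if_pos h, (hNRI f (P.1 ^ 2) A b c hf hP2).2.2.2.2 x (h2 h)]
    · rw [if_neg h, if_neg h]
  have e3 : (if P.1 ∣ A ∧ P.1 ∣ e then nr f P.1 (dvi A P.1) b (c + x) else 0) =
      if P.1 ∣ A ∧ P.1 ∣ e then nr f P.1 (dvi A P.1) b c else 0 := by
    by_cases h : P.1 ∣ A ∧ P.1 ∣ e
    · have h3 := ((hNRA f A P hf hA h.1).2 b hb).1
      rw [if_pos h, if_pos h, h3 _ hcx, h3 _ hc]
    · rw [if_neg h, if_neg h]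
  unfold hl
  by_cases h : P ∈ m₁ ∧ P ∈ m₂
  · rw [if_pos h, if_pos h]
    unfold N2
    simp only [e1, e2, e3]
  · rw [if_neg h, if_neg h]
    unfold N1
    simp only [e1]

omit [IsTotallyReal k] in
theorem pr_per {M I J : Ideal (𝓞 k)} (h : I ∣ J) {x : 𝓞 k} (hx : x ∈ J * M) : x ∈ I * M :=
  Ideal.mul_mono_left (Ideal.le_of_dvd h) hx

theorem pf_LC (hMIA : T_MIA k) (hMPW : T_MPW k) (hNRI : T_NRI k) (hNRC : T_NRC k)
    (hNRA : T_NRA k) (_hIDL : T_IDL k) : T_LC k := by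
  classical
  intro f q e A m₁ m₂ b w hf hq he hA hb hPq hw
  have hM : A * f ^ 2 ≠ ⊥ := mul_ne_zero hA (pow_ne_zero 2 hf)
  have hId : idS (m₁ ∪ m₂) ≠ ⊥ := by
    unfold idS
    exact Finset.prod_ne_zero_iff.2 fun P _ => P.2.2
  have hId2 : idS (m₁ ∪ m₂) ^ 2 ≠ ⊥ := pow_ne_zero 2 hId
  have hG : (fun c => w c * (Nw f m₁ m₂ e A b c : ℝ)) =
      fun c => w c * ∏ P ∈ m₁ ∪ m₂, hl f m₁ m₂ e A b P c := by
    funext c
    rw [Nw_cast]
  rw [hG]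
  have hper1 : Per (A * f ^ 2) (q * e)
      (fun c => w c * ∏ P ∈ m₁ ∪ m₂, hl f m₁ m₂ e A b P c) := by
    intro c hc x hx
    have hcx : c + x ∈ A * f ^ 2 := Ideal.add_mem _ hc (Ideal.mul_le_right hx)
    have h1 : x ∈ q * (A * f ^ 2) := pr_per (dvd_mul_right _ _) hx
    have h2 : x ∈ e * (A * f ^ 2) := pr_per (dvd_mul_left _ _) hx
    dsimp only
    rw [hw c hc x h1]
    congr 1
    refine Finset.prod_congr rfl fun P _ => ?_
    exact hl_per hNRI hNRA hf hA hb P hc hcx (fun h => pr_per h h2) (fun h => pr_per h h2)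
  have hperP : ∀ P : PrI k, Per (A * f ^ 2) (P.1 ^ 2) (hl f m₁ m₂ e A b P) := by
    intro P c hc x hx
    have hcx : c + x ∈ A * f ^ 2 := Ideal.add_mem _ hc (Ideal.mul_le_right hx)
    exact hl_per hNRI hNRA hf hA hb P hc hcx
      (fun _ => pr_per (dvd_pow_self _ two_ne_zero) hx) (fun _ => hx)
  have hper2 : Per (A * f ^ 2) (q * idS (m₁ ∪ m₂) ^ 2)
      (fun c => w c * ∏ P ∈ m₁ ∪ m₂, hl f m₁ m₂ e A b P c) := by
    intro c hc x hx
    have h1 : x ∈ q * (A * f ^ 2) := pr_per (dvd_mul_right _ _) hx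
    dsimp only
    rw [hw c hc x h1]
    congr 1
    refine Finset.prod_congr rfl fun P hP => ?_
    refine hperP P c hc x (pr_per ?_ hx)
    refine Dvd.dvd.mul_left ?_ _
    refine pow_dvd_pow_of_dvd ?_ 2
    unfold idS
    exact Finset.dvd_prod_of_mem (fun P : PrI k => P.1) hP
  refine ⟨hper1, ?_⟩
  have h1 := (hMIA (A * f ^ 2) (q * e) hM (mul_ne_zero hq he)).2.1 _
    (idS (m₁ ∪ m₂) ^ 2) hId2 hper1
  have h2 := (hMIA (A * f ^ 2) (q * idS (m₁ ∪ m₂) ^ 2) hM (mul_ne_zero hq hId2)).2.1 _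
    e he hper2
  have h3 : idS (m₁ ∪ m₂) ^ 2 * (q * e) = e * (q * idS (m₁ ∪ m₂) ^ 2) := by ring
  rw [h3] at h1
  rw [← h1, h2, hMPW (A * f ^ 2) q (m₁ ∪ m₂) w (hl f m₁ m₂ e A b) hM hq hPq hw
    (fun P _ => hperP P)]
  congr 1
  unfold Ncb
  refine Finset.prod_congr rfl fun P _ => ?_
  -- the local means
  have hP : P.1 ≠ ⊥ := P.2.2
  have hP2 : P.1 ^ 2 ≠ ⊥ := pow_ne_zero 2 hP
  obtain ⟨m1, -, -, mc, ma, mm, -⟩ := hMIA (A * f ^ 2) (P.1 ^ 2) hM hP2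
  have mk : ∀ r : ℝ, mI (A * f ^ 2) (P.1 ^ 2) (fun _ => r) = r := by
    intro r
    have h4 := mm r (fun _ => 1)
    rw [m1] at h4
    simpa using h4
  have c1 : mI (A * f ^ 2) (P.1 ^ 2) (fun c => if P.1 ∣ e then (nr f P.1 A b c : ℝ) else 0) =
      if P.1 ∣ e then 1 else 0 := by
    by_cases h : P.1 ∣ e
    · simp only [if_pos h]
      exact hNRC f P.1 (P.1 ^ 2) A b hf hP hP2 hA (dvd_pow_self _ two_ne_zero) hb
    · simp only [if_neg h]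
      exact mk 0
  have c2 : mI (A * f ^ 2) (P.1 ^ 2)
      (fun c => if P.1 ^ 2 ∣ e then (nr f (P.1 ^ 2) A b c : ℝ) else 0) =
      if P.1 ^ 2 ∣ e then 1 else 0 := by
    by_cases h : P.1 ^ 2 ∣ e
    · simp only [if_pos h]
      exact hNRC f (P.1 ^ 2) (P.1 ^ 2) A b hf hP2 hP2 hA dvd_rfl hb
    · simp only [if_neg h]
      exact mk 0
  have c3 : mI (A * f ^ 2) (P.1 ^ 2)
      (fun c => if P.1 ∣ A ∧ P.1 ∣ e then (nr f P.1 (dvi A P.1) b c : ℝ) else 0) =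
      if P.1 ∣ A ∧ P.1 ∣ e then (nr f P.1 (dvi A P.1) b 0 : ℝ) else 0 := by
    by_cases h : P.1 ∣ A ∧ P.1 ∣ e
    · simp only [if_pos h]
      have h5 := mc (fun c => (nr f P.1 (dvi A P.1) b c : ℝ))
        (fun _ => (nr f P.1 (dvi A P.1) b 0 : ℝ))
        (fun c hc => by rw [((hNRA f A P hf hA h.1).2 b hb).1 c hc])
      rw [h5, mk]
    · simp only [if_neg h]
      exact mk 0
  by_cases h : P ∈ m₁ ∧ P ∈ m₂
  · rw [if_pos h]
    have h4 : hl f m₁ m₂ e A b P = fun c => ((((if P.1 ^ 2 ∣ A then (1 : ℝ) else 0) +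
        (if P.1 ∣ A ∧ P.1 ∣ e then (nr f P.1 (dvi A P.1) b c : ℝ) else 0)) +
        (if P.1 ∣ e then (nr f P.1 A b c : ℝ) else 0)) +
        (if P.1 ^ 2 ∣ e then (nr f (P.1 ^ 2) A b c : ℝ) else 0)) := by
      funext c
      unfold hl N2
      rw [if_pos h]
      push_cast
      rfl
    rw [h4, ma, ma, ma, mk, c1, c2, c3]
  · rw [if_neg h]
    have h4 : hl f m₁ m₂ e A b P = fun c => ((if P.1 ∣ A then (1 : ℝ) else 0) +
        (if P.1 ∣ e then (nr f P.1 A b c : ℝ) else 0)) := by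
      funext c
      unfold hl N1
      rw [if_neg h]
      push_cast
      rfl
    rw [h4, ma, mk, c1]

end LC

end Pool.Agent.H4.NVK
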